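import Mathlib
import Pool.Agent.N760.PosUpper
import Pool.Agent.N760.PosLower

set_option autoImplicit false

open Set

namespace Pool.Agent.Results.MP_18f540_nt.PositiveCoefficients

/-- `E(w)`: the points `(x 0, x 1)` of the Euclidean plane for which there is a constant `c > 0`
such that `|p x₀ + q x₁ + r| < c max(p, q)^(-w)` holds for infinitely many integer triples
`(p, q, r)` with `p > 0` and `q > 0`. -/
def E (w : ℝ) : Set (EuclideanSpace ℝ (Fin 2)) :=
  {x | ∃ c : ℝ, 0 < c ∧ {t : ℤ × ℤ × ℤ | 0 < t.1 ∧ 0 < t.2.1 ∧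
    |(t.1 : ℝ) * x 0 + (t.2.1 : ℝ) * x 1 + (t.2.2 : ℝ)| <
      c * (max (t.1 : ℝ) (t.2.1 : ℝ)) ^ (-w)}.Infinite}

/-- For every real `w > 2` the Hausdorff dimension of `E(w)` is `1 + 3 / (w + 1)`. -/
theorem result (w : ℝ) (hw : 2 < w) : dimH (E w) = ENNReal.ofReal (1 + 3 / (w + 1)) := by
  apply le_antisymm
  · -- the upper bound, by coverings of strips
    have hsub : E w ⊆ ⋃ K : ℕ, Pool.Agent.N760.Pos.AK w (K + 1) := by
      rintro x ⟨c, hc, hinf⟩
      obtain ⟨K, hK⟩ := exists_nat_gt (|x 0| + |x 1| + c)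
      have h0 := abs_nonneg (x 0)
      have h1 := abs_nonneg (x 1)
      have hle : c ≤ ((K + 1 : ℕ) : ℝ) := by push_cast; linarith
      refine Set.mem_iUnion.2 ⟨K, ⟨by push_cast; linarith, by push_cast; linarith, ?_⟩⟩
      refine hinf.mono ?_
      rintro t ⟨h2, h3, h4⟩
      refine ⟨h2, h3, lt_of_lt_of_le h4 ?_⟩
      have h5 : (0 : ℝ) < t.1 := by exact_mod_cast h2
      have h6 : (0 : ℝ) < max (t.1 : ℝ) (t.2.1 : ℝ) := lt_max_of_lt_left h5
      gcongr
    have hup : ∀ s : ℝ, 1 + 3 / (w + 1) < s → dimH (E w) ≤ ENNReal.ofReal s := by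
      intro s hs
      refine (dimH_mono hsub).trans ?_
      rw [dimH_iUnion]
      exact iSup_le fun K => Pool.Agent.N760.Pos.upper_AK w (by linarith) (K + 1) (by omega) s hs
    by_contra hcon
    push Not at hcon
    obtain ⟨s, hs0, hs1, hs2⟩ := ENNReal.lt_iff_exists_real_btwn.1 hcon
    have hpos : 0 ≤ 1 + 3 / (w + 1) := by
      have : 0 < w + 1 := by linarith
      positivity
    rw [ENNReal.ofReal_lt_ofReal_iff_of_nonneg hpos] at hs1
    exact absurd (hup s hs1) (not_le.2 hs2)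
  · -- the lower bound, from the set without a condition on the signs
    refine (Pool.Agent.N760.Pos.lower_EF w hw).trans (le_of_eq ?_)
    exact (ContinuousLinearEquiv.dimH_preimage (EuclideanSpace.equiv (Fin 2) ℝ)
      (Pool.Agent.N760.Pos.EF w)).symm

end Pool.Agent.Results.MP_18f540_nt.PositiveCoefficients
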